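import Pool.Agent.U331.CG.Pr

/-!
# The primes with a prescribed Fourier coefficient `a_p = r`, for almost all curves both coefficients of which are
sums of independent random integers (words of codes at arbitrary positions, for example)

By the modularity theorem and the theory of new forms (not used here) these curves are those of the forms of the question, and
`a_p(E)` is the Fourier coefficient. By the class number formula of Deuring `model r x` is, up to bounded factors of the terms,
the sum of `H(4 p - r²) / (2 p)` over the primes `p ≤ x`, where `H` is the class number of Hurwitz; so this is the count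
predicted by Lang and Trotter on average over all curves, of order `x ^ (1 / 2) / log x`.

Method. New here: the exponential sums over such random integers. If the product of a frequency with `R b ^ j` is far from
the integers, then so is its product with one of the differences `x_t - y_t`, and the characteristic function of the
summand number `n_t` loses a constant factor at this frequency. So the exponential sum decays exponentially in the number
of the positions at which the frequency, multiplied with `R`, is far from the integers (`Pool.Agent.U331.SU`,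
`Pool.Agent.U331.CG`). The passage from such a decay to sums over primes of functions of residues, for almost all
pairs of members, is from the starting library (`Pool.Agent.R459.Eq` and `Pool.Agent.N794.CG`, generic in the family).
-/

set_option autoImplicit false

namespace Pool.Agent.Results.MP_631487_nt.IndependentSumPairs

open Finset
open Pool.Agent.W263.BSD (GoodPrime pointCount)

/-- `p` is the distribution of a sum of `N` independent random integers: the summand number `n` takes the values `x ∈ S n` with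
the probabilities `π n x`, and the values of the sum are `< b ^ k`. For all but at most `s` of the positions `j < k` the number
`R b ^ j` is a combination `∑ t, c_t (x_t - y_t)`, `t < s`, with integers `|c_t| ≤ s`, where `x_t` and `y_t` are values which one
of the summands, the one with the number `n_t`, takes with a probability of at least `η`; and every summand is used in this
way for at most `s` positions. (Examples: independent random digits, each from an arbitrary set with at least two elements;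
palindromes with independent pairs of opposite digits, `R = b ^ 2 - 1`; the integers whose digits in arbitrary blocks of
boundedly many positions are independent random words of arbitrary codes which are not contained in a hyperplane, no single
digit of which needs to be variable; sums of several integers of this kind.) -/
structure Sums (b s R : ℕ) (η : ℝ) (k : ℕ) (p : ℕ → ℝ) : Prop where
  ex : ∃ (N : ℕ) (S : Fin N → Finset ℕ) (π : Fin N → ℕ → ℝ),
    (∀ n, (∀ x, 0 ≤ π n x) ∧ ∑ x ∈ S n, π n x = 1) ∧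
    (∀ x ∈ Fintype.piFinset S, ∑ n, x n < b ^ k) ∧
    (∀ v, p v = ∑ x ∈ (Fintype.piFinset S).filter (fun x => ∑ n, x n = v), ∏ n, π n (x n)) ∧
    ∃ (J : Finset ℕ) (n : ℕ → Fin s → Fin N) (c : ℕ → Fin s → ℤ) (x y : ℕ → Fin s → ℕ),
      (J ⊆ range k ∧ k ≤ J.card + s) ∧
      (∀ j ∈ J, ((R * b ^ j : ℕ) : ℤ) = ∑ t, c j t * ((x j t : ℤ) - y j t)) ∧
      (∀ j ∈ J, ∀ t, |c j t| ≤ s ∧ (x j t ∈ S (n j t) ∧ y j t ∈ S (n j t)) ∧
        η ≤ π (n j t) (x j t) ∧ η ≤ π (n j t) (y j t)) ∧
      ∀ m : Fin N, (J.filter fun j => ∃ t, n j t = m).card ≤ s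

lemma conv {b s R : ℕ} {η : ℝ} {k : ℕ} {p : ℕ → ℝ} (h : Sums b s R η k p) : Pool.Agent.U331.SU.Sums b s R η k p := ⟨h.ex⟩

/-- `p` is a prime of good reduction of the curve `E : y² = x³ + a x + n` (a prime which does not divide the discriminant
`-16 (4 a³ + 27 n²)`) and `a_p(E) = p - N_p = r`, where `N_p` is the number of the affine points modulo `p`. -/
def Trace (r : ℤ) (p : ℕ) (a n : ℤ) : Prop := GoodPrime a n p ∧ (p : ℤ) - pointCount a n p = r

open Classical in
/-- The number `π_E(x, r)` of the primes `p ≤ x` of good reduction of `E : y² = x³ + a x + n` with `a_p(E) = r`. -/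
noncomputable def piE (a n r : ℤ) (x : ℕ) : ℕ := ((range (x + 1)).filter (fun p => Trace r p a n)).card

open Classical in
/-- The sum over the primes `p ≤ x` of the proportion of the pairs `(α, ν)` of residues modulo `p` for which `p` is a prime of
good reduction of `y² = x³ + α x + ν` with trace `r`. -/
noncomputable def model (r : ℤ) (x : ℕ) : ℝ :=
  ∑ p ∈ (range (x + 1)).filter Nat.Prime,
    (((range p ×ˢ range p).filter (fun z : ℕ × ℕ => Trace r p z.1 z.2)).card : ℝ) / (p : ℝ) ^ 2

/-- For all integers `|r| ≤ x ^ (δ / 4)` the number of the primes `p ≤ x` of good reduction of `E : y² = x³ + a x + n` with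
`a_p(E) = r` differs from `model r x` by at most `3 x ^ δ` times the square root of `model r (4 x)` (or of `1`). -/
def Good (δ : ℝ) (x : ℕ) (a n : ℤ) : Prop := ∀ r : ℤ, |(r : ℝ)| ≤ (x : ℝ) ^ (δ / 4) →
  |(piE a n r x : ℝ) - model r x| ≤ 3 * √(max 1 (model r (4 * x))) * (x : ℝ) ^ δ

open Classical in
/-- Let `b₁, b₂ ≥ 2`, `s₁`, `s₂`, `R₁, R₂ ≥ 1`, `η₁, η₂ > 0` and `0 < δ ≤ 1` be fixed. There is `W` such that for `κ₁, κ₂ ≠ 0` and all
sufficiently large `X` the following holds for all `k₁`, `k₂`, all probabilities `w₁`, `w₂` with `Sums b₁ s₁ R₁ η₁ k₁ w₁`,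
`Sums b₂ s₂ R₂ η₂ k₂ w₂` and all integers `e₁`, `e₂`. Let `u < b₁ ^ k₁` and `v < b₂ ^ k₂` be independent random integers with
the distributions `w₁` and `w₂`.

Up to a probability of at most `8 X ^ (- δ / 4)` the curve `E : y² = x³ + a x + n` with `a = e₁ + κ₁ u` and `n = e₂ + κ₂ v` has the
following property for ALL `x ≥ X` with `x ^ W ≤ b₁ ^ k₁` and `x ^ W ≤ b₂ ^ k₂` and ALL integers `|r| ≤ x ^ (δ / 4)`: the number
`π_E(x, r)` of the primes `p ≤ x` with `a_p(E) = r` is `M(x)` up to an error of at most `3 x ^ δ (max 1 M(4 x)) ^ (1 / 2)`, where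
`M(x)` is the sum over `p ≤ x` of the proportion of the pairs of residues modulo `p` for which the curve has the trace `r`. -/
theorem result (b₁ : ℕ) (hb₁ : 2 ≤ b₁) (s₁ R₁ : ℕ) (hR₁ : 1 ≤ R₁) (η₁ : ℝ) (hη0₁ : 0 < η₁)
    (b₂ : ℕ) (hb₂ : 2 ≤ b₂) (s₂ R₂ : ℕ) (hR₂ : 1 ≤ R₂) (η₂ : ℝ) (hη0₂ : 0 < η₂) (δ : ℝ) (hδ : 0 < δ) (hδ1 : δ ≤ 1) : ∃ W : ℕ, 1 ≤ W ∧
      ∀ κ₁ κ₂ : ℤ, κ₁ ≠ 0 → κ₂ ≠ 0 → ∃ X₀ : ℕ, ∀ X : ℕ, X₀ ≤ X → ∀ (k₁ k₂ : ℕ) (w₁ w₂ : ℕ → ℝ),
      Sums b₁ s₁ R₁ η₁ k₁ w₁ → Sums b₂ s₂ R₂ η₂ k₂ w₂ → ∀ e₁ e₂ : ℤ,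
      ∑ u ∈ range (b₁ ^ k₁), ∑ v ∈ range (b₂ ^ k₂),
        (if (∀ x : ℕ, X ≤ x → x ^ W ≤ b₁ ^ k₁ → x ^ W ≤ b₂ ^ k₂ → Good δ x (e₁ + κ₁ * (u : ℕ)) (e₂ + κ₂ * (v : ℕ)))
          then 0 else w₁ u * w₂ v) ≤ 8 * (X : ℝ) ^ (-(δ / 4)) := by
  obtain ⟨W, hW, H⟩ := Pool.Agent.U331.CG.Pr.pairs_cls b₁ (b₁.factorial * R₁) 0 b₂ (b₂.factorial * R₂) 0 hb₁
    (Nat.mul_pos (Nat.factorial_pos _) hR₁) hb₂ (Nat.mul_pos (Nat.factorial_pos _) hR₂)
    (Pool.Agent.U331.SU.Sums b₁ s₁ R₁ η₁) (Pool.Agent.U331.SU.Sums b₂ s₂ R₂ η₂)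
    (fun _ _ h => Pool.Agent.U331.SU.sums_nonneg h) (fun _ _ h => Pool.Agent.U331.SU.sums_nonneg h) (fun _ _ h => Pool.Agent.U331.SU.sums_one h) (fun _ _ h => Pool.Agent.U331.SU.sums_one h)
    (Pool.Agent.U331.CG.sums_dom b₁ s₁ R₁ hb₁ hR₁ η₁ hη0₁)
    (Pool.Agent.U331.CG.sums_dom b₂ s₂ R₂ hb₂ hR₂ η₂ hη0₂) δ hδ hδ1
  refine ⟨W, hW, fun κ₁ κ₂ hκ₁ hκ₂ => ?_⟩
  obtain ⟨X₀, J⟩ := H κ₁ κ₂ hκ₁ hκ₂
  refine ⟨X₀, fun X hX k₁ k₂ w₁ w₂ hw₁ hw₂ e₁ e₂ => ?_⟩
  refine (J X hX k₁ k₂ w₁ w₂ (conv hw₁) (conv hw₂) e₁ e₂).trans (le_of_eq ?_)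
  rw [pow_zero, pow_zero]
  ring

end Pool.Agent.Results.MP_631487_nt.IndependentSumPairs
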