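import Pool.Agent.U62.LT.Per

/-!
# Large deviations of the number of the primes with a prescribed trace of Frobenius

The conjecture of Lang and Trotter, and the bound `π(x, a) ≪ √x / log x` in particular, is based on a probabilistic model: the events
`a_p(E) = a` for the different primes `p` behave like independent events of small probability.  We show that this model predicts
the large deviations correctly for random members of an arbitrary polynomial family of elliptic curves `E_c : y² = x³ + A(c) x + B(c)`,
`A, B ∈ ℤ[c_1, ..., c_n]`: let `μ` be the expected number of the primes `p` in a finite set `P` of primes with `a_p = r`, that is the sum of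
the local densities. Then the proportion of the `c` for which there are at least `t μ` such primes, `t ≥ 1`, is
`exp(-(t log t - t + 1 + o(1)) μ)`, and the proportion of the `c` for which there are at most `t μ` such primes, `0 ≤ t ≤ 1`, is
`exp(-(t log t - t + 1 + o(1)) μ)`, too (for `t = 0`: there is no such prime for a proportion `exp(-(1 + o(1)) μ)` of the
curves).  So the bound `π ≤ t μ` of the type of Lang and Trotter holds for all curves of the family outside of an exceptional set of
exponentially small proportion, and the theorem gives the size of this exceptional set.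

The result is uniform in the family, in the trace, in the set of primes and in the size of the box.  The conditions are: the local densities
are small, the expected number is large, and the box has the size `y ^ (K μ)`, `y` being the largest prime.  (For the family of all
curves the expected number of the primes `p ≤ y` is of the order `√y / log y`, so that the condition on the box is
`y ≤ c (log H) ^ 2`.)

The proof compares the law of the number of the primes over the box with the law in the model of independent events by Bonferroni's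
inequalities up to an order which is a large multiple of `μ`: the error is smaller than the probabilities in question, although these are
exponentially small.
-/

set_option autoImplicit false

namespace Pool.Agent.Results.MP_631487_nt.LargeDeviations

open Finset

/-- The number of the solutions of `y² = x³ + a x + b` modulo `p`. -/
noncomputable def affinePoints (a b : ℤ) (p : ℕ) : ℕ :=
  ((range p ×ˢ range p).filter fun z : ℕ × ℕ =>
    (p : ℤ) ∣ (z.2 : ℤ) ^ 2 - ((z.1 : ℤ) ^ 3 + a * z.1 + b)).card

/-- The prime `p` does not divide `2 (4 a³ + 27 b²)`, so that `E : y² = x³ + a x + b` has good reduction at `p`, and the trace of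
Frobenius `a_p(E) = p + 1 - #E(𝔽_p)` is `r`. -/
def HasTrace (r : ℤ) (p : ℕ) (a b : ℤ) : Prop :=
  ¬ (p : ℤ) ∣ 2 * (4 * a ^ 3 + 27 * b ^ 2) ∧ (p : ℤ) - affinePoints a b p = r

open scoped Classical in
/-- The number of the `p` in `P` of good reduction of `y² = x³ + a x + b` with `a_p = r`. -/
noncomputable def count (a b r : ℤ) (P : Finset ℕ) : ℕ := (P.filter fun p => HasTrace r p a b).card

open scoped Classical in
/-- The local density: the proportion of the `c` modulo `p` for which `y² = x³ + A(c) x + B(c)` has good reduction at `p` and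
the trace `r`. -/
noncomputable def density {n : ℕ} (A B : MvPolynomial (Fin n) ℤ) (r : ℤ) (p : ℕ) : ℝ :=
  (((Fintype.piFinset fun _ : Fin n => range p).filter fun t => HasTrace r p
    (MvPolynomial.eval (fun l => (t l : ℤ)) A) (MvPolynomial.eval (fun l => (t l : ℤ)) B)).card : ℝ) / (p : ℝ) ^ n

/-- The expected number: the sum of the local densities. -/
noncomputable def expected {n : ℕ} (A B : MvPolynomial (Fin n) ℤ) (r : ℤ) (P : Finset ℕ) : ℝ :=
  ∑ p ∈ P, density A B r p

/-- The proportion of the integer vectors `c` with coordinates of absolute value at most `H` which have the property `Q`. -/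
noncomputable def proportion {n : ℕ} (H : ℕ) (Q : (Fin n → ℤ) → Prop) : ℝ :=
  ({c : Fin n → ℤ | (∀ i, |c i| ≤ H) ∧ Q c}.ncard : ℝ) / (2 * H + 1 : ℝ) ^ n

/-- The rate function of the Poisson law. -/
noncomputable def rate (t : ℝ) : ℝ := t * Real.log t - t + 1

/-- The number `x` lies between `exp (- (R + ε) μ)` and `exp (- (R - ε) μ)`. -/
def Between (μ R ε x : ℝ) : Prop := Real.exp (-((R + ε) * μ)) ≤ x ∧ x ≤ Real.exp (-((R - ε) * μ))

theorem points_congr (p : ℕ) {a a' b b' : ℤ} (ha : (p : ℤ) ∣ a - a') (hb : (p : ℤ) ∣ b - b') :
    affinePoints a b p = affinePoints a' b' p := by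
  unfold affinePoints
  congr 1
  apply filter_congr
  intro xy _
  have h : (p : ℤ) ∣ ((xy.2 : ℤ) ^ 2 - ((xy.1 : ℤ) ^ 3 + a * xy.1 + b)) -
      ((xy.2 : ℤ) ^ 2 - ((xy.1 : ℤ) ^ 3 + a' * xy.1 + b')) := by
    have e : ((xy.2 : ℤ) ^ 2 - ((xy.1 : ℤ) ^ 3 + a * xy.1 + b)) -
      ((xy.2 : ℤ) ^ 2 - ((xy.1 : ℤ) ^ 3 + a' * xy.1 + b')) = -((a - a') * xy.1 + (b - b')) := by ring
    rw [e]
    exact (dvd_add (ha.mul_right _) hb).neg_right
  exact (dvd_iff_dvd_of_dvd_sub h)

theorem disc_congr (p : ℕ) {a a' b b' : ℤ} (ha : (p : ℤ) ∣ a - a') (hb : (p : ℤ) ∣ b - b') :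
    (p : ℤ) ∣ 2 * (4 * a ^ 3 + 27 * b ^ 2) ↔ (p : ℤ) ∣ 2 * (4 * a' ^ 3 + 27 * b' ^ 2) := by
  have h : (p : ℤ) ∣ 2 * (4 * a ^ 3 + 27 * b ^ 2) - 2 * (4 * a' ^ 3 + 27 * b' ^ 2) := by
    have e : 2 * (4 * a ^ 3 + 27 * b ^ 2) - 2 * (4 * a' ^ 3 + 27 * b' ^ 2) =
      (a - a') * (8 * (a ^ 2 + a * a' + a' ^ 2)) + (b - b') * (54 * (b + b')) := by ring
    rw [e]
    exact dvd_add (ha.mul_right _) (hb.mul_right _)
  exact dvd_iff_dvd_of_dvd_sub h

theorem trace_congr {r : ℤ} {p : ℕ} {a a' b b' : ℤ} (ha : (p : ℤ) ∣ a - a') (hb : (p : ℤ) ∣ b - b')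
    (h : HasTrace r p a b) : HasTrace r p a' b' := by
  unfold HasTrace at h ⊢
  rw [← points_congr p ha hb, ← disc_congr p ha hb]
  exact h

theorem eval_congr {n : ℕ} (f : MvPolynomial (Fin n) ℤ) (p : ℕ) {c d : Fin n → ℤ} (h : ∀ l, (p : ℤ) ∣ c l - d l) :
    (p : ℤ) ∣ MvPolynomial.eval c f - MvPolynomial.eval d f := by
  induction f using MvPolynomial.induction_on with
  | C z => simp
  | add f g hf hg =>
    rw [map_add, map_add]
    have e : MvPolynomial.eval c f + MvPolynomial.eval c g - (MvPolynomial.eval d f + MvPolynomial.eval d g) =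
        (MvPolynomial.eval c f - MvPolynomial.eval d f) + (MvPolynomial.eval c g - MvPolynomial.eval d g) := by ring
    rw [e]
    exact dvd_add hf hg
  | mul_X f i hf =>
    rw [map_mul, map_mul, MvPolynomial.eval_X, MvPolynomial.eval_X]
    have e : MvPolynomial.eval c f * c i - MvPolynomial.eval d f * d i =
        (MvPolynomial.eval c f - MvPolynomial.eval d f) * c i + MvPolynomial.eval d f * (c i - d i) := by ring
    rw [e]
    exact dvd_add (hf.mul_right _) ((h i).mul_left _)

/-- **Large deviations of the number of the primes with a prescribed trace of Frobenius.**  For all `n`, `t ≥ 0` and `ε > 0`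
there is a `K` with the following property.  Let `E_c : y² = x³ + A(c) x + B(c)`, `A, B ∈ ℤ[c_1, ..., c_n]`, be any polynomial family
of elliptic curves, let `r` be an integer and `P` a finite set of primes `p ≤ y`.  Suppose that the local densities
`density A B r p`, `p ∈ P`, are at most `1 / K` and that their sum `μ`, the expected number, is at least `K`.  Then, for every `l ≥ μ` and
`H ≥ y ^ (K l)`: if `t ≥ 1`, the proportion of the `c` with `|c_j| ≤ H` for which at least `t μ` of the primes `p ∈ P` are primes of good
reduction with `a_p(E_c) = r` lies between `exp(-(t log t - t + 1 + ε) μ)` and `exp(-(t log t - t + 1 - ε) μ)`; and if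
`t ≤ 1`, this is true for the proportion of the `c` for which at most `t μ` of the primes `p ∈ P` are such primes. -/
theorem result (n : ℕ) (t ε : ℝ) (ht : 0 ≤ t) (hε : 0 < ε) : ∃ K : ℕ,
    ∀ (A B : MvPolynomial (Fin n) ℤ) (r : ℤ) (P : Finset ℕ) (y H l : ℕ),
      (∀ p ∈ P, p.Prime ∧ p ≤ y) → (∀ p ∈ P, K * density A B r p ≤ 1) →
      (K : ℝ) ≤ expected A B r P → expected A B r P ≤ l → y ^ (K * l) ≤ H →
      (1 ≤ t → Between (expected A B r P) (rate t) ε
        (proportion H fun c => t * expected A B r P ≤ count (MvPolynomial.eval c A) (MvPolynomial.eval c B) r P)) ∧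
      (t ≤ 1 → Between (expected A B r P) (rate t) ε
        (proportion H fun c => count (MvPolynomial.eval c A) (MvPolynomial.eval c B) r P ≤ t * expected A B r P)) := by
  classical
  obtain ⟨K, hK⟩ := Pool.Agent.U62.LT.tails_per n t ht hε
  refine ⟨K, fun A B r P y H l hP hd hK1 hl hH => ?_⟩
  exact hK (fun p c => HasTrace r p (MvPolynomial.eval c A) (MvPolynomial.eval c B)) P y H l hP
    (fun p _ c c' hc h => trace_congr (eval_congr A p hc) (eval_congr B p hc) h) hd hK1 hl hH

end Pool.Agent.Results.MP_631487_nt.LargeDeviations
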