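import Pool.Agent.U331.CG.Pr

/-!
# The primes with a prescribed Fourier coefficient `a_p = r`, for almost all curves both coefficients of which are
random integers whose pairs of opposite digits can be exchanged (palindromes, for example)

By the modularity theorem and the theory of new forms (not used here) these curves are those of the forms of the question, and
`a_p(E)` is the Fourier coefficient. By the class number formula of Deuring `model r x` is, up to bounded factors of the terms,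
the sum of `H(4 p - r²) / (2 p)` over the primes `p ≤ x`, where `H` is the class number of Hurwitz; so this is the count
predicted by Lang and Trotter on average over all curves, of order `x ^ (1 / 2) / log x`.

Method. New here: the exponential sums over such random integers. An exchange of a pair of opposite digits changes `v` by
`P b ^ (k - 1 - i) + Q b ^ i` with `P, Q ≠ 0`; if the products of a frequency with these numbers are close to integers for two
neighbouring pairs, then they determine the products with `(b ^ 4)! b ^ i` and `(b ^ 4)! b ^ (k - 2 - i)` modulo `1`. So the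
exponential sum decays exponentially in the number of the positions at which the frequency, multiplied with `(b ^ 4)!`, is
far from the integers (`Pool.Agent.U331.MW`), with the factor `k ^ T`, which disappears after a mixture with the uniform
distribution (`Pool.Agent.U331.CG`). The passage from such a decay to sums over primes of functions of residues, for almost all
pairs of members, is from the starting library (`Pool.Agent.R459.Eq` and `Pool.Agent.N794.CG`, generic in the family).
-/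

set_option autoImplicit false

namespace Pool.Agent.Results.MP_631487_nt.MirrorPairs

open Finset
open Pool.Agent.W263.BSD (GoodPrime pointCount)

/-- The integer whose digits in base `b` are the `i` digits of `u < b ^ i`, the `m` digits of `w < b ^ m` and the `i` digits of
`u' < b ^ i`, one after the other, from the most significant to the least significant one. -/
def frame (b m i u u' w : ℕ) : ℕ := u * b ^ (m + i) + (w * b ^ i + u')

/-- The probability, for the distribution `μ`, that the word of `m + 2 i` digits begins with the `i` digits of `u` and ends with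
the `i` digits of `u'`. -/
noncomputable def outer (b : ℕ) (μ : ℕ → ℝ) (m i u u' : ℕ) : ℝ := ∑ w ∈ range (b ^ m), μ (frame b m i u u' w)

/-- `p` is a probability on the words of `k` digits in base `b`, read as integers `v < b ^ k`. There is another probability
`μ` with `p ≤ k ^ T μ` such that, whatever the first `i` digits `u` and the last `i` digits `u'` are (`m + 2 (i + 1) = k`), two
different pairs `(a, a')` and `(c, c')`, `a ≠ c`, `a' ≠ c'`, of the next digit from the left and the next digit from the right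
can be exchanged: `p (u a w a' u') = r p (u c w c' u')` for all the words `w` of `m` digits, with a factor `r` between `η` and
`1 / η` which does not depend on `w`; and given `u` and `u'`, each of the two pairs comes next with a probability of at least
`η` in the distribution `μ`. (No digit alone needs to be exchangeable. Example: the uniform distribution on the palindromic
words, `T = 0`, `μ = p`, `η = 1 / b`, `r = 1`.) -/
structure Mirror (b : ℕ) (η : ℝ) (T k : ℕ) (p : ℕ → ℝ) : Prop where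
  nonneg : ∀ v, 0 ≤ p v
  sum : ∑ v ∈ range (b ^ k), p v = 1
  dominated : ∃ μ : ℕ → ℝ, (∀ v, 0 ≤ μ v) ∧ ∑ v ∈ range (b ^ k), μ v = 1 ∧ (∀ v < b ^ k, p v ≤ (k : ℝ) ^ T * μ v) ∧
    ∀ i m u u' : ℕ, m + 2 * (i + 1) = k → u < b ^ i → u' < b ^ i → ∃ (a a' c c' : ℕ) (r : ℝ),
      (a < b ∧ a' < b ∧ c < b ∧ c' < b) ∧ a ≠ c ∧ a' ≠ c' ∧ η ≤ r ∧ η * r ≤ 1 ∧
      (∀ w < b ^ m, p (frame b m (i + 1) (b * u + a) (a' * b ^ i + u') w) =
        r * p (frame b m (i + 1) (b * u + c) (c' * b ^ i + u') w)) ∧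
      η * outer b μ (m + 2) i u u' ≤ outer b μ m (i + 1) (b * u + a) (a' * b ^ i + u') ∧
      η * outer b μ (m + 2) i u u' ≤ outer b μ m (i + 1) (b * u + c) (c' * b ^ i + u')

lemma conv {b : ℕ} {η : ℝ} {T k : ℕ} {p : ℕ → ℝ} (h : Mirror b η T k p) : Pool.Agent.U331.MW.Mirror b η T k p :=
  ⟨h.nonneg, h.sum, h.dominated⟩

/-- `p` is a prime of good reduction of the curve `E : y² = x³ + a x + n` (a prime which does not divide the discriminant
`-16 (4 a³ + 27 n²)`) and `a_p(E) = p - N_p = r`, where `N_p` is the number of the affine points modulo `p`. -/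
def Trace (r : ℤ) (p : ℕ) (a n : ℤ) : Prop := GoodPrime a n p ∧ (p : ℤ) - pointCount a n p = r

open Classical in
/-- The number `π_E(x, r)` of the primes `p ≤ x` of good reduction of `E : y² = x³ + a x + n` with `a_p(E) = r`. -/
noncomputable def piE (a n r : ℤ) (x : ℕ) : ℕ := ((range (x + 1)).filter (fun p => Trace r p a n)).card

open Classical in
/-- The sum over the primes `p ≤ x` of the proportion of the pairs `(α, ν)` of residues modulo `p` for which `p` is a prime of
good reduction of `y² = x³ + α x + ν` with trace `r`. -/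
noncomputable def model (r : ℤ) (x : ℕ) : ℝ :=
  ∑ p ∈ (range (x + 1)).filter Nat.Prime,
    (((range p ×ˢ range p).filter (fun z : ℕ × ℕ => Trace r p z.1 z.2)).card : ℝ) / (p : ℝ) ^ 2

/-- For all integers `|r| ≤ x ^ (δ / 4)` the number of the primes `p ≤ x` of good reduction of `E : y² = x³ + a x + n` with
`a_p(E) = r` differs from `model r x` by at most `3 x ^ δ` times the square root of `model r (4 x)` (or of `1`). -/
def Good (δ : ℝ) (x : ℕ) (a n : ℤ) : Prop := ∀ r : ℤ, |(r : ℝ)| ≤ (x : ℝ) ^ (δ / 4) →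
  |(piE a n r x : ℝ) - model r x| ≤ 3 * √(max 1 (model r (4 * x))) * (x : ℝ) ^ δ

open Classical in
/-- Let `b₁, b₂ ≥ 2`, `0 < η₁, η₂ ≤ 1`, `T₁`, `T₂` and `0 < δ ≤ 1` be fixed. There is `W` such that for `κ₁, κ₂ ≠ 0` and all
sufficiently large `X` the following holds for all `k₁`, `k₂`, all probabilities `w₁`, `w₂` with `Mirror b₁ η₁ T₁ k₁ w₁`,
`Mirror b₂ η₂ T₂ k₂ w₂` and all integers `e₁`, `e₂`. Let `u < b₁ ^ k₁` and `v < b₂ ^ k₂` be independent random integers with
the distributions `w₁` and `w₂`.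

Up to a probability of at most `4 (k₁ ^ T₁ + k₂ ^ T₂) X ^ (- δ / 4)` the curve `E : y² = x³ + a x + n` with `a = e₁ + κ₁ u` and `n = e₂ + κ₂ v` has the
following property for ALL `x ≥ X` with `x ^ W ≤ b₁ ^ k₁` and `x ^ W ≤ b₂ ^ k₂` and ALL integers `|r| ≤ x ^ (δ / 4)`: the number
`π_E(x, r)` of the primes `p ≤ x` with `a_p(E) = r` is `M(x)` up to an error of at most `3 x ^ δ (max 1 M(4 x)) ^ (1 / 2)`, where
`M(x)` is the sum over `p ≤ x` of the proportion of the pairs of residues modulo `p` for which the curve has the trace `r`. -/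
theorem result (b₁ : ℕ) (hb₁ : 2 ≤ b₁) (η₁ : ℝ) (hη0₁ : 0 < η₁) (hη1₁ : η₁ ≤ 1) (T₁ : ℕ)
    (b₂ : ℕ) (hb₂ : 2 ≤ b₂) (η₂ : ℝ) (hη0₂ : 0 < η₂) (hη1₂ : η₂ ≤ 1) (T₂ : ℕ) (δ : ℝ) (hδ : 0 < δ) (hδ1 : δ ≤ 1) : ∃ W : ℕ, 1 ≤ W ∧
      ∀ κ₁ κ₂ : ℤ, κ₁ ≠ 0 → κ₂ ≠ 0 → ∃ X₀ : ℕ, ∀ X : ℕ, X₀ ≤ X → ∀ (k₁ k₂ : ℕ) (w₁ w₂ : ℕ → ℝ),
      Mirror b₁ η₁ T₁ k₁ w₁ → Mirror b₂ η₂ T₂ k₂ w₂ → ∀ e₁ e₂ : ℤ,
      ∑ u ∈ range (b₁ ^ k₁), ∑ v ∈ range (b₂ ^ k₂),
        (if (∀ x : ℕ, X ≤ x → x ^ W ≤ b₁ ^ k₁ → x ^ W ≤ b₂ ^ k₂ → Good δ x (e₁ + κ₁ * (u : ℕ)) (e₂ + κ₂ * (v : ℕ)))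
          then 0 else w₁ u * w₂ v) ≤ 4 * ((k₁ : ℝ) ^ T₁ + (k₂ : ℝ) ^ T₂) * (X : ℝ) ^ (-(δ / 4)) := by
  obtain ⟨W, hW, H⟩ := Pool.Agent.U331.CG.Pr.pairs_cls b₁ (b₁.factorial * (b₁ ^ 4).factorial) T₁ b₂ (b₂.factorial * (b₂ ^ 4).factorial) T₂ hb₁
    (Nat.mul_pos (Nat.factorial_pos _) (Nat.factorial_pos _)) hb₂ (Nat.mul_pos (Nat.factorial_pos _) (Nat.factorial_pos _))
    (Pool.Agent.U331.MW.Mirror b₁ η₁ T₁) (Pool.Agent.U331.MW.Mirror b₂ η₂ T₂)
    (fun _ _ h => h.nonneg) (fun _ _ h => h.nonneg) (fun _ _ h => h.sum) (fun _ _ h => h.sum)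
    (Pool.Agent.U331.CG.mir_dom b₁ hb₁ η₁ hη0₁ hη1₁ T₁)
    (Pool.Agent.U331.CG.mir_dom b₂ hb₂ η₂ hη0₂ hη1₂ T₂) δ hδ hδ1
  refine ⟨W, hW, fun κ₁ κ₂ hκ₁ hκ₂ => ?_⟩
  obtain ⟨X₀, J⟩ := H κ₁ κ₂ hκ₁ hκ₂
  refine ⟨X₀, fun X hX k₁ k₂ w₁ w₂ hw₁ hw₂ e₁ e₂ => ?_⟩
  exact J X hX k₁ k₂ w₁ w₂ (conv hw₁) (conv hw₂) e₁ e₂

end Pool.Agent.Results.MP_631487_nt.MirrorPairs
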