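import Pool.Agent.N794.CG.Pairs
import Pool.Agent.R459.Bsd4
import Pool.Agent.U710.LE.Y

/-!
# The primes with a prescribed Fourier coefficient `a_p = r`, for almost all curves whose coefficients are both values of
functions which grow faster than any power

From the starting library (`Pool.Agent.W263.BSD`): `GoodPrime a n p`: `p` is a prime which does not divide the discriminant
`-16 (4 a³ + 27 n²)` of the curve `E : y² = x³ + a x + n`; `pointCount a n p`: the number `N_p` of the affine points of `E`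
modulo `p`.

By the modularity theorem and the theory of new forms (not used here) these curves are those of the forms of the question, and
`a_p(E)` is the Fourier coefficient. By the class number formula of Deuring `model r x` is, up to bounded factors of the terms,
the sum of `H(4 p - r²) / (2 p)` over the primes `p ≤ x`, where `H` is the class number of Hurwitz; so this is the count
predicted by Lang and Trotter on average over all curves, of order `x ^ (1 / 2) / log x`.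

Method (`Pool.Agent.U710.LE`, new): exponential sums over the integer parts of `exp (α (log n) ^ γ + β)`, with the mean value
theorem of Vinogradov for a degree which tends to infinity; they are small at all frequencies at a distance of at least
`exp (-(log y) ^ η)`, `η < 3 - 2 γ`, from the integers. The passage from there to sums over primes of functions of residues,
for almost all members of a family, is from the starting library (`Pool.Agent.R459.Eq`, `Pool.Agent.N794.CG`).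
-/

set_option autoImplicit false

namespace Pool.Agent.Results.MP_631487_nt.SubexponentialPairs

open Finset Filter Pool.Agent.R459.Eq Pool.Agent.N794.CG
open Pool.Agent.W263.BSD (GoodPrime pointCount)

/-- The sequence: `S α β γ n = ⌊exp (α (log n) ^ γ + β)⌋`. -/
noncomputable def S (α β γ : ℝ) (n : ℕ) : ℕ := ⌊Real.exp (α * Real.log n ^ γ + β)⌋₊

/-- `p` is a prime of good reduction of the curve `E : y² = x³ + a x + n` (a prime which does not divide the discriminant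
`-16 (4 a³ + 27 n²)`) and `a_p(E) = p - N_p = r`, where `N_p` is the number of the affine points modulo `p`. -/
def Trace (r : ℤ) (p : ℕ) (a n : ℤ) : Prop := GoodPrime a n p ∧ (p : ℤ) - pointCount a n p = r

open Classical in
/-- The number `π_E(x, r)` of the primes `p ≤ x` of good reduction of `E : y² = x³ + a x + n` with `a_p(E) = r`. -/
noncomputable def piE (a n r : ℤ) (x : ℕ) : ℕ := ((range (x + 1)).filter (fun p => Trace r p a n)).card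

open Classical in
/-- The sum over the primes `p ≤ x` of the proportion of the pairs `(α, ν)` of residues modulo `p` for which `p` is a prime of
good reduction of `y² = x³ + α x + ν` with trace `r`. -/
noncomputable def model (r : ℤ) (x : ℕ) : ℝ :=
  ∑ p ∈ (range (x + 1)).filter Nat.Prime,
    (((range p ×ˢ range p).filter (fun z : ℕ × ℕ => Trace r p z.1 z.2)).card : ℝ) / (p : ℝ) ^ 2

/-- For all integers `|r| ≤ x ^ (δ / 4)` the number of the primes `p ≤ x` of good reduction of `E : y² = x³ + a x + n` with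
`a_p(E) = r` differs from `model r x` by at most `3 x ^ δ` times the square root of `model r (4 x)` (or of `1`). -/
def Good (δ : ℝ) (x : ℕ) (a n : ℤ) : Prop := ∀ r : ℤ, |(r : ℝ)| ≤ (x : ℝ) ^ (δ / 4) →
  |(piE a n r x : ℝ) - model r x| ≤ 3 * √(max 1 (model r (4 * x))) * (x : ℝ) ^ δ

lemma piE_eq (a n r : ℤ) (x : ℕ) : piE a n r x = cntR (Trace r) a n x := by
  classical
  unfold piE cntR
  congr 1
  ext p
  simp only [mem_filter, mem_range, mem_pri]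
  constructor
  · rintro ⟨h1, h2⟩
    exact ⟨⟨by omega, h2.1.1⟩, h2⟩
  · rintro ⟨h1, h2⟩
    exact ⟨by omega, h2⟩

lemma model_eq (r : ℤ) (x : ℕ) : model r x = ∑ p ∈ pri x, dens2 (Trace r) p := by
  classical
  have e : (range (x + 1)).filter Nat.Prime = pri x := by
    unfold pri
    congr!
  unfold model dens2
  rw [e]

lemma trace_per (r : ℤ) (p : ℕ) (_ : p.Prime) (a a' n n' : ℤ) (h : (p : ℤ) ∣ a - a') (h' : (p : ℤ) ∣ n - n') :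
    Trace r p a n ↔ Trace r p a' n' := by
  have e1 : ((a : ℤ) : ZMod p) = ((a' : ℤ) : ZMod p) := by
    rw [← sub_eq_zero, ← Int.cast_sub, ZMod.intCast_zmod_eq_zero_iff_dvd]
    exact h
  have e2 : ((n : ℤ) : ZMod p) = ((n' : ℤ) : ZMod p) := by
    rw [← sub_eq_zero, ← Int.cast_sub, ZMod.intCast_zmod_eq_zero_iff_dvd]
    exact h'
  have h1 : GoodPrime a n p ↔ GoodPrime a' n' p := by
    unfold GoodPrime
    rw [← ZMod.intCast_zmod_eq_zero_iff_dvd, ← ZMod.intCast_zmod_eq_zero_iff_dvd]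
    push_cast
    rw [e1, e2]
  have h2 : pointCount a n p = pointCount a' n' p := by
    unfold pointCount
    rw [e1, e2]
  unfold Trace
  rw [h1, h2]

lemma trace_uniq (p : ℕ) (a n r r' : ℤ) (h : Trace r p a n) (h' : Trace r' p a n) : r = r' := by
  rw [← h.2, ← h'.2]

/-- a curve which is not good -/
lemma bad_of {δ : ℝ} {x : ℕ} {a n : ℤ} (h : ¬ Good δ x a n) : ∃ r : ℤ, |(r : ℝ)| ≤ (x : ℝ) ^ (δ / 2 / 2) ∧
    3 * √(max 1 (∑ p ∈ pri (4 * x), dens2 (Trace r) p)) * (x : ℝ) ^ (2 * (δ / 2)) <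
      |(cntR (Trace r) a n x : ℝ) - ∑ p ∈ pri x, dens2 (Trace r) p| := by
  unfold Good at h
  push Not at h
  obtain ⟨r, h1, h2⟩ := h
  have e1 : δ / 2 / 2 = δ / 4 := by ring
  have e2 : 2 * (δ / 2) = δ := by ring
  refine ⟨r, by rw [e1]; exact h1, ?_⟩
  rw [e2, ← model_eq, ← model_eq, ← piE_eq]
  exact h2

/-- the change of the range -/
lemma range_two {x W N : ℕ} (hx : 2 ≤ x) (h : x ^ (2 * W) ≤ N) : x ^ W ≤ N ∧ (2 * x) ^ W ≤ N := by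
  have h1 : (2 * x) ^ W ≤ x ^ (2 * W) := by
    rw [pow_mul]
    exact Nat.pow_le_pow_left (by nlinarith) W
  have h2 : x ^ W ≤ (2 * x) ^ W := Nat.pow_le_pow_left (by omega) W
  exact ⟨h2.trans (h1.trans h), h1.trans h⟩

open Classical in
/-- the theorem for a single curve for each pair -/
theorem base (α₁ β₁ γ₁ α₂ β₂ γ₂ η δ : ℝ) (hα₁ : 0 < α₁) (hγ₁ : 1 < γ₁) (hγ₁' : γ₁ < 3 / 2) (hα₂ : 0 < α₂) (hγ₂ : 1 < γ₂)
    (hγ₂' : γ₂ < 3 / 2) (hη0 : 0 < η) (hη₁ : η < 3 - 2 * γ₁) (hη₂ : η < 3 - 2 * γ₂) (hδ : 0 < δ) (hδ1 : δ ≤ 1)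
    (κ₁ κ₂ : ℤ) (hκ₁ : κ₁ ≠ 0) (hκ₂ : κ₂ ≠ 0) (A : ℕ) :
    ∃ X₀ y₀ : ℕ, ∀ X : ℕ, X₀ ≤ X → ∀ y₁ h₁ y₂ h₂ : ℕ, y₀ ≤ y₁ → y₀ ≤ y₂ →
      (y₁ : ℝ) / Real.log y₁ ^ A ≤ h₁ → (h₁ : ℝ) ≤ y₁ / Real.log y₁ →
      (y₂ : ℝ) / Real.log y₂ ^ A ≤ h₂ → (h₂ : ℝ) ≤ y₂ / Real.log y₂ → ∀ e₁ e₂ : ℤ,
      (((Ioc (y₁ - h₁) y₁ ×ˢ Ioc (y₂ - h₂) y₂).filter (fun z : ℕ × ℕ => ¬ ∀ x : ℕ, X ≤ x →
        (x : ℝ) ≤ Real.exp (Real.log y₁ ^ η) → (x : ℝ) ≤ Real.exp (Real.log y₂ ^ η) →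
        Good δ x (e₁ + κ₁ * (S α₁ β₁ γ₁ z.1 : ℕ)) (e₂ + κ₂ * (S α₂ β₂ γ₂ z.2 : ℕ)))).card : ℝ) ≤
        8 * (X : ℝ) ^ (-(δ / 4)) * ((h₁ : ℝ) * h₂) := by
  obtain ⟨W, hW, H⟩ := eng_fine (δ / 2) (by linarith) (by linarith) 2 le_rfl 1 (1 / 2) (by norm_num) (by norm_num)
  obtain ⟨X₁, J₁⟩ := H 1 κ₁ le_rfl hκ₁
  obtain ⟨X₂, J₂⟩ := H 1 κ₂ le_rfl hκ₂
  obtain ⟨y₁₀, hy₁⟩ := Pool.Agent.U710.LE.sub_dec α₁ β₁ γ₁ η hα₁ hγ₁ hγ₁' hη0 hη₁ A (2 * W)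
  obtain ⟨y₂₀, hy₂⟩ := Pool.Agent.U710.LE.sub_dec α₂ β₂ γ₂ η hα₂ hγ₂ hγ₂' hη0 hη₂ A (2 * W)
  refine ⟨X₁ + X₂ + 2, y₁₀ + y₂₀, fun X hX y₁ h₁ y₂ h₂ hyy₁ hyy₂ ha₁ hb₁ ha₂ hb₂ e₁ e₂ => ?_⟩
  obtain ⟨g₁, g₁', K₁, hd₁, hW₁⟩ := hy₁ y₁ h₁ (by omega) ha₁ hb₁
  obtain ⟨g₂, g₂', K₂, hd₂, hW₂⟩ := hy₂ y₂ h₂ (by omega) ha₂ hb₂
  have hcard : ∀ y h : ℕ, h ≤ y → (Ioc (y - h) y).card = h := fun y h hh => by rw [Nat.card_Ioc]; omega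
  have hone : ∀ y h : ℕ, h ≤ y → ∑ _i ∈ Ioc (y - h) y, 1 / ((Ioc (y - h) y).card : ℝ) ≤ 1 := by
    intro y h _
    rw [sum_const, nsmul_eq_mul, mul_one_div]
    exact div_self_le_one _
  have hS₁ : ∀ m : ℕ, S α₁ β₁ γ₁ m = ⌊Pool.Agent.U710.LE.ef α₁ β₁ γ₁ m⌋₊ := fun m => rfl
  have hS₂ : ∀ m : ℕ, S α₂ β₂ γ₂ m = ⌊Pool.Agent.U710.LE.ef α₂ β₂ γ₂ m⌋₊ := fun m => rfl
  have F₁ : FineAt (δ / 2) X (fun x => x ^ W ≤ 2 ^ K₁) (2 * (X : ℝ) ^ (-(δ / 2 / 2))) (Ioc (y₁ - h₁) y₁)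
      (fun _ => 1 / ((Ioc (y₁ - h₁) y₁).card : ℝ)) (fun u => e₁ + κ₁ * (S α₁ β₁ γ₁ u : ℕ)) := by
    intro s
    rw [hcard y₁ h₁ g₁']
    have h1 := J₁ X (by omega) K₁ 1 ℕ _ _ _ (dom_of_decays (hd₁ e₁ κ₁)) s
    rw [one_mul] at h1
    exact h1
  have F₂ : FineAt (δ / 2) X (fun x => x ^ W ≤ 2 ^ K₂) (2 * (X : ℝ) ^ (-(δ / 2 / 2))) (Ioc (y₂ - h₂) y₂)
      (fun _ => 1 / ((Ioc (y₂ - h₂) y₂).card : ℝ)) (fun u => e₂ + κ₂ * (S α₂ β₂ γ₂ u : ℕ)) := by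
    intro s
    rw [hcard y₂ h₂ g₂']
    have h1 := J₂ X (by omega) K₂ 1 ℕ _ _ _ (dom_of_decays (hd₂ e₂ κ₂)) s
    rw [one_mul] at h1
    exact h1
  have h1 := pairs_card (Ioc (y₁ - h₁) y₁) (Ioc (y₂ - h₂) y₂) _ (filter_subset _ _) _
    (pairs_trace (Ω₁ := Ioc (y₁ - h₁) y₁) (Ω₂ := Ioc (y₂ - h₂) y₂) (w₁ := fun _ => 1 / ((Ioc (y₁ - h₁) y₁).card : ℝ))
      (w₂ := fun _ => 1 / ((Ioc (y₂ - h₂) y₂).card : ℝ))
      (fun _ _ => by positivity) (fun _ _ => by positivity) (hone _ _ g₁') (hone _ _ g₂') (by linarith : 0 < δ / 2)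
      (by linarith) (by omega : 1 ≤ X) (by positivity) F₁ F₂ Trace trace_per trace_uniq
      ((Ioc (y₁ - h₁) y₁ ×ˢ Ioc (y₂ - h₂) y₂).filter (fun z : ℕ × ℕ => ¬ ∀ x : ℕ, X ≤ x →
        (x : ℝ) ≤ Real.exp (Real.log y₁ ^ η) → (x : ℝ) ≤ Real.exp (Real.log y₂ ^ η) →
        Good δ x (e₁ + κ₁ * (S α₁ β₁ γ₁ z.1 : ℕ)) (e₂ + κ₂ * (S α₂ β₂ γ₂ z.2 : ℕ)))) (filter_subset _ _) (by
        intro z hz
        have h2 := (mem_filter.1 hz).2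
        push Not at h2
        obtain ⟨x, hXx, h3, h4, h5⟩ := h2
        have hx2 : 2 ≤ x := by omega
        have k1 := range_two hx2 (hW₁ x h3)
        have k2 := range_two hx2 (hW₂ x h4)
        exact ⟨x, hXx, k1.1, k1.2, k2.1, bad_of h5⟩))
  rw [hcard y₁ h₁ g₁', hcard y₂ h₂ g₂'] at h1
  refine h1.trans (le_of_eq ?_)
  have e : δ / 2 / 2 = δ / 4 := by ring
  rw [e]
  ring

open Classical in
/-- Let `S₁` and `S₂` be two sequences `⌊exp (α (log n) ^ γ + β)⌋`, `α > 0`, `1 < γ < 3/2` (they grow faster than any power of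
`n`, and have only `N ^ o(1)` members up to `N`). Let `0 < η < 3 - 2 γ` for both, let `0 < δ ≤ 1`, and let `κ₁, κ₂ ≠ 0` and `A` be
integers. Let `X`, `y₁` and `y₂` be sufficiently large, let `yᵢ / (log yᵢ) ^ A ≤ hᵢ ≤ yᵢ / log yᵢ`, and let `e₁`, `e₂` and
`R ≥ 0` be any integers.

For almost all the pairs `(u, v)` of integers `u` in `(y₁ - h₁, y₁]` and `v` in `(y₂ - h₂, y₂]`, up to a proportion of at most
`8 (2 R + 1) ^ 2 X ^ (- δ / 4)`, ALL the curves `E : y² = x³ + a x + n` with `|a - (e₁ + κ₁ S₁(u))| ≤ R` and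
`|n - (e₂ + κ₂ S₂(v))| ≤ R` have the following property for ALL `x ≥ X` with `x ≤ exp ((log yᵢ) ^ η)`, `i = 1, 2`, and ALL
integers `|r| ≤ x ^ (δ / 4)`: the number `π_E(x, r)` of the primes `p ≤ x` with `a_p(E) = r` is `M(x)` up to an error of at
most `3 x ^ δ (max 1 M(4 x)) ^ (1 / 2)`, where `M(x)` is the sum over `p ≤ x` of the proportion of the pairs of residues
modulo `p` for which the curve has the trace `r`. -/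
theorem result (α₁ β₁ γ₁ α₂ β₂ γ₂ η δ : ℝ) (hα₁ : 0 < α₁) (hγ₁ : 1 < γ₁) (hγ₁' : γ₁ < 3 / 2) (hα₂ : 0 < α₂) (hγ₂ : 1 < γ₂)
    (hγ₂' : γ₂ < 3 / 2) (hη0 : 0 < η) (hη₁ : η < 3 - 2 * γ₁) (hη₂ : η < 3 - 2 * γ₂) (hδ : 0 < δ) (hδ1 : δ ≤ 1)
    (κ₁ κ₂ : ℤ) (hκ₁ : κ₁ ≠ 0) (hκ₂ : κ₂ ≠ 0) (A : ℕ) :
    ∃ X₀ y₀ : ℕ, ∀ X : ℕ, X₀ ≤ X → ∀ y₁ h₁ y₂ h₂ : ℕ, y₀ ≤ y₁ → y₀ ≤ y₂ →
      (y₁ : ℝ) / Real.log y₁ ^ A ≤ h₁ → (h₁ : ℝ) ≤ y₁ / Real.log y₁ →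
      (y₂ : ℝ) / Real.log y₂ ^ A ≤ h₂ → (h₂ : ℝ) ≤ y₂ / Real.log y₂ → ∀ (e₁ e₂ : ℤ) (R : ℕ),
      (((Ioc (y₁ - h₁) y₁ ×ˢ Ioc (y₂ - h₂) y₂).filter (fun z : ℕ × ℕ => ¬ ∀ a n : ℤ,
        |a - (e₁ + κ₁ * (S α₁ β₁ γ₁ z.1 : ℕ))| ≤ R → |n - (e₂ + κ₂ * (S α₂ β₂ γ₂ z.2 : ℕ))| ≤ R → ∀ x : ℕ, X ≤ x →
        (x : ℝ) ≤ Real.exp (Real.log y₁ ^ η) → (x : ℝ) ≤ Real.exp (Real.log y₂ ^ η) → Good δ x a n)).card : ℝ) ≤
        8 * (2 * (R : ℝ) + 1) ^ 2 * (X : ℝ) ^ (-(δ / 4)) * ((h₁ : ℝ) * h₂) := by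
  obtain ⟨X₀, y₀, H⟩ := base α₁ β₁ γ₁ α₂ β₂ γ₂ η δ hα₁ hγ₁ hγ₁' hα₂ hγ₂ hγ₂' hη0 hη₁ hη₂ hδ hδ1 κ₁ κ₂ hκ₁ hκ₂ A
  refine ⟨X₀, y₀, fun X hX y₁ h₁ y₂ h₂ hyy₁ hyy₂ ha₁ hb₁ ha₂ hb₂ e₁ e₂ R => ?_⟩
  obtain ⟨I, hI⟩ : ∃ I : Finset (ℤ × ℤ), I = Icc (-(R : ℤ)) R ×ˢ Icc (-(R : ℤ)) R := ⟨_, rfl⟩
  have hIc : (I.card : ℝ) = (2 * (R : ℝ) + 1) ^ 2 := by
    have h1 : I.card = (2 * R + 1) * (2 * R + 1) := by
      rw [hI, card_product, Int.card_Icc]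
      congr 1 <;> omega
    rw [h1]
    push_cast
    ring
  obtain ⟨B, hB⟩ : ∃ B : ℤ × ℤ → Finset (ℕ × ℕ), B = fun i => (Ioc (y₁ - h₁) y₁ ×ˢ Ioc (y₂ - h₂) y₂).filter
      (fun z : ℕ × ℕ => ¬ ∀ x : ℕ, X ≤ x →
        (x : ℝ) ≤ Real.exp (Real.log y₁ ^ η) → (x : ℝ) ≤ Real.exp (Real.log y₂ ^ η) →
        Good δ x (e₁ + i.1 + κ₁ * (S α₁ β₁ γ₁ z.1 : ℕ)) (e₂ + i.2 + κ₂ * (S α₂ β₂ γ₂ z.2 : ℕ))) := ⟨_, rfl⟩
  have hsub : (Ioc (y₁ - h₁) y₁ ×ˢ Ioc (y₂ - h₂) y₂).filter (fun z : ℕ × ℕ => ¬ ∀ a n : ℤ,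
        |a - (e₁ + κ₁ * (S α₁ β₁ γ₁ z.1 : ℕ))| ≤ R → |n - (e₂ + κ₂ * (S α₂ β₂ γ₂ z.2 : ℕ))| ≤ R → ∀ x : ℕ, X ≤ x →
        (x : ℝ) ≤ Real.exp (Real.log y₁ ^ η) → (x : ℝ) ≤ Real.exp (Real.log y₂ ^ η) → Good δ x a n) ⊆ I.biUnion B := by
    intro z hz
    obtain ⟨hz1, hz2⟩ := mem_filter.1 hz
    push Not at hz2
    obtain ⟨a, n, g1, g2, x, g3, g4, g5, g6⟩ := hz2
    rw [mem_biUnion]
    refine ⟨(a - (e₁ + κ₁ * (S α₁ β₁ γ₁ z.1 : ℕ)), n - (e₂ + κ₂ * (S α₂ β₂ γ₂ z.2 : ℕ))), ?_, ?_⟩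
    · rw [hI, mem_product, mem_Icc, mem_Icc]
      exact ⟨abs_le.1 g1, abs_le.1 g2⟩
    · rw [hB]
      refine mem_filter.2 ⟨hz1, fun hcon => g6 ?_⟩
      have h2 := hcon x g3 g4 g5
      have e1 : e₁ + (a - (e₁ + κ₁ * (S α₁ β₁ γ₁ z.1 : ℕ))) + κ₁ * (S α₁ β₁ γ₁ z.1 : ℕ) = a := by ring
      have e2 : e₂ + (n - (e₂ + κ₂ * (S α₂ β₂ γ₂ z.2 : ℕ))) + κ₂ * (S α₂ β₂ γ₂ z.2 : ℕ) = n := by ring
      simp only at h2
      rw [e1, e2] at h2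
      exact h2
  calc (((Ioc (y₁ - h₁) y₁ ×ˢ Ioc (y₂ - h₂) y₂).filter (fun z : ℕ × ℕ => ¬ ∀ a n : ℤ,
        |a - (e₁ + κ₁ * (S α₁ β₁ γ₁ z.1 : ℕ))| ≤ R → |n - (e₂ + κ₂ * (S α₂ β₂ γ₂ z.2 : ℕ))| ≤ R → ∀ x : ℕ, X ≤ x →
        (x : ℝ) ≤ Real.exp (Real.log y₁ ^ η) → (x : ℝ) ≤ Real.exp (Real.log y₂ ^ η) → Good δ x a n)).card : ℝ)
      ≤ ((I.biUnion B).card : ℝ) := Nat.cast_le.2 (card_le_card hsub)
    _ ≤ ∑ i ∈ I, ((B i).card : ℝ) := by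
        have h1 := card_biUnion_le (s := I) (t := B)
        exact_mod_cast h1
    _ ≤ ∑ _i ∈ I, 8 * (X : ℝ) ^ (-(δ / 4)) * ((h₁ : ℝ) * h₂) := by
        apply sum_le_sum
        intro i _
        rw [hB]
        exact H X hX y₁ h₁ y₂ h₂ hyy₁ hyy₂ ha₁ hb₁ ha₂ hb₂ (e₁ + i.1) (e₂ + i.2)
    _ = 8 * (2 * (R : ℝ) + 1) ^ 2 * (X : ℝ) ^ (-(δ / 4)) * ((h₁ : ℝ) * h₂) := by
        rw [sum_const, nsmul_eq_mul, hIc]
        ring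

end Pool.Agent.Results.MP_631487_nt.SubexponentialPairs
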